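import Pool.Agent.Run7.h148.AX.Stm1

/-!
Project AX (helper148), piece FI4: time regularity on the Fourier side.
-/

set_option autoImplicit false

open MeasureTheory Set Filter Topology
open scoped ENNReal ContDiff FourierTransform

namespace Run7.h793.AX
open Pool.Agent.Run7.h148.AX

theorem norm_dt_le (ξ : E3) (v : C3) : ‖dt ξ v‖ ≤ 3 * ‖ξ‖ * ‖v‖ := by
  unfold dt
  calc ‖∑ j, (ξ j : ℂ) * v j‖ ≤ ∑ j, ‖(ξ j : ℂ) * v j‖ := norm_sum_le _ _
    _ ≤ ∑ j : Fin 3, ‖ξ‖ * ‖v‖ := by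
        refine Finset.sum_le_sum fun j _ => ?_
        rw [norm_mul]
        refine mul_le_mul ?_ (norm_le_pi_norm v j) (norm_nonneg _) (norm_nonneg _)
        rw [Complex.norm_real]
        exact PiLp.norm_apply_le ξ j
    _ = 3 * ‖ξ‖ * ‖v‖ := by simp; ring

theorem cont_dt (ξ : E3) : Continuous fun p : C3 × C3 => dt ξ p.1 • p.2 := by
  unfold dt
  fun_prop

theorem cont_lp (ξ : E3) : Continuous (Pool.Agent.Run7.h148.AX.lp ξ) := by
  unfold Pool.Agent.Run7.h148.AX.lp dt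
  refine continuous_pi fun k => ?_
  refine Continuous.sub (by fun_prop) ?_
  refine Continuous.div_const ?_ _
  fun_prop

theorem wk_nw (k : ℕ) (ξ : E3) : wk k ξ * nw ξ ≤ wk (k + 1) ξ := by
  unfold wk nw
  rw [← ENNReal.ofReal_mul (by positivity)]
  refine ENNReal.ofReal_le_ofReal ?_
  rw [pow_succ]
  exact mul_le_mul_of_nonneg_left (by linarith [norm_nonneg ξ]) (by positivity)

theorem wk_zero (ξ : E3) : wk 0 ξ = 1 := by simp [wk]

theorem tameN (hNLB : S_NLB) (hNLM : S_NLM) (hWK1 : S_WK1) {u : ℝ → E3 → C3} (hu : TameV u) :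
    TameV (fun t ξ => nl (u t) (u t) ξ) := by
  have hm : Measurable (Function.uncurry fun t ξ => nl (u t) (u t) ξ) := hNLM u u hu.1 hu.1
  refine ⟨hm, hm.enorm, ?_⟩
  intro k T
  obtain ⟨M0, h0⟩ := hu.2.2 0 T
  obtain ⟨M1, h1⟩ := hu.2.2 (k + 1) T
  refine ⟨40 * (2 ^ (k + 1) * (M1 * M0 + M0 * M1)), fun t ht => ?_⟩
  have hmt : Measurable (nm u t) := (hu.1.comp measurable_prodMk_left).enorm
  have w0 : ∫⁻ ξ, nm u t ξ ≤ M0 := by simpa [wk_zero] using (h0 t ht).1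
  have hb : ∀ ξ, wk k ξ * nm (fun t ξ => nl (u t) (u t) ξ) t ξ ≤
      40 * (wk (k + 1) ξ * cv (nm u t) (nm u t) ξ) := by
    intro ξ
    calc wk k ξ * nm (fun t ξ => nl (u t) (u t) ξ) t ξ
        ≤ wk k ξ * (40 * nw ξ * cv (nm u t) (nm u t) ξ) := by
          gcongr
          exact hNLB (u t) (u t) ξ
      _ = 40 * ((wk k ξ * nw ξ) * cv (nm u t) (nm u t) ξ) := by ring
      _ ≤ _ := by
          gcongr
          exact wk_nw k ξ
  push_cast
  constructor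
  · calc ∫⁻ ξ, wk k ξ * nm (fun t ξ => nl (u t) (u t) ξ) t ξ
        ≤ ∫⁻ ξ, 40 * (wk (k + 1) ξ * cv (nm u t) (nm u t) ξ) := lintegral_mono hb
      _ = 40 * ∫⁻ ξ, wk (k + 1) ξ * cv (nm u t) (nm u t) ξ := lintegral_const_mul' _ _ (by simp)
      _ ≤ _ := by
          gcongr
          refine ((hWK1 _ _ hmt hmt).1 (k + 1)).trans ?_
          gcongr
          · exact (h1 t ht).1
          · exact (h1 t ht).1
  · intro ξ
    refine (hb ξ).trans ?_
    refine mul_le_mul' le_rfl ?_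
    refine ((hWK1 _ _ hmt hmt).2.1 (k + 1) M1 M1 (h1 t ht).2 (h1 t ht).2 ξ).trans ?_
    gcongr

/-- bounded in time for a fixed frequency -/
theorem bdN {a : ℝ → E3 → C3} (ha : TameV a) (T : ℝ) :
    ∃ M : ℝ, 0 ≤ M ∧ ∀ t ∈ Icc 0 T, ∀ ξ, ‖a t ξ‖ ≤ M := by
  obtain ⟨M, h⟩ := ha.2.2 0 T
  refine ⟨M, M.2, fun t ht ξ => ?_⟩
  have h1 := (h t ht).2 ξ
  rw [wk_zero, one_mul] at h1
  have h2 : ‖a t ξ‖ₑ ≤ (M : ℝ≥0∞) := h1
  rw [enorm_le_coe] at h2
  exact_mod_cast h2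

/-- decay of order four, locally uniformly in time -/
theorem dec4 {a : ℝ → E3 → C3} (ha : TameV a) (T : ℝ) :
    ∃ M : ℝ, 0 ≤ M ∧ ∀ t ∈ Icc 0 T, ∀ ξ, ‖a t ξ‖ ≤ M * (1 + ‖ξ‖) ^ (-(4 : ℝ)) := by
  obtain ⟨M, h⟩ := ha.2.2 4 T
  refine ⟨M, M.2, fun t ht ξ => ?_⟩
  have h1 := (h t ht).2 ξ
  have hp : (0 : ℝ) < (1 + ‖ξ‖) ^ 4 := by positivity
  have h2 : ENNReal.ofReal ((1 + ‖ξ‖) ^ 4 * ‖a t ξ‖) ≤ (M : ℝ≥0∞) := by
    rw [ENNReal.ofReal_mul hp.le, ofReal_norm]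
    exact h1
  rw [ENNReal.ofReal_le_iff_le_toReal (by simp)] at h2
  rw [ENNReal.coe_toReal] at h2
  rw [Real.rpow_neg (by positivity)]
  rw [← div_eq_mul_inv, le_div_iff₀ (by positivity)]
  have e : (1 + ‖ξ‖) ^ (4 : ℝ) = (1 + ‖ξ‖) ^ 4 := by
    rw [← Real.rpow_natCast]
    norm_num
  rw [e, mul_comm]
  exact h2

/-- the integrand -/
noncomputable def G (κ : ℝ) (N : ℝ → E3 → C3) (ξ : E3) (s : ℝ) : C3 :=
  Real.exp (κ * ‖ξ‖ ^ 2 * s) • N s ξ

theorem intG {κ : ℝ} {N : ℝ → E3 → C3} (hκ : 0 < κ) (hN : TameV N) (ξ : E3) (T : ℝ) :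
    IntegrableOn (G κ N ξ) (Icc 0 T) volume := by
  obtain ⟨M, hM0, hM⟩ := bdN hN T
  have hm : Measurable (G κ N ξ) := by
    unfold G
    have h1 : Measurable fun s => N s ξ := hN.1.comp measurable_prodMk_right
    have h0 : Measurable fun s : ℝ => Real.exp (κ * ‖ξ‖ ^ 2 * s) := by fun_prop
    exact h0.smul h1
  refine Measure.integrableOn_of_bounded (M := Real.exp (κ * ‖ξ‖ ^ 2 * T) * M) (by simp)
    hm.aestronglyMeasurable ?_
  rw [ae_restrict_iff' measurableSet_Icc]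
  refine Eventually.of_forall fun s hs => ?_
  unfold G
  rw [norm_smul, Real.norm_eq_abs, abs_of_pos (Real.exp_pos _)]
  refine mul_le_mul ?_ (hM s hs ξ) (norm_nonneg _) (Real.exp_pos _).le
  refine Real.exp_le_exp.2 ?_
  exact mul_le_mul_of_nonneg_left hs.2 (by positivity)

theorem formula {κ : ℝ} {u N : ℝ → E3 → C3} (ξ : E3)
    (h : ∀ t, 0 ≤ t → ∀ ξ, u t ξ = ht κ ξ t • u 0 ξ + ∫ s in Ioc 0 t, ht κ ξ (t - s) • N s ξ)
    (t : ℝ) (ht0 : 0 ≤ t) :
    u t ξ = ht κ ξ t • (u 0 ξ + ∫ s in (0 : ℝ)..t, G κ N ξ s) := by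
  rw [h t ht0 ξ, smul_add, intervalIntegral.integral_of_le ht0, ← integral_smul]
  congr 1
  refine setIntegral_congr_fun measurableSet_Ioc fun s _ => ?_
  simp only [G, ht, smul_smul]
  rw [← Real.exp_add]
  congr 2
  ring

theorem contPrim {κ : ℝ} {N : ℝ → E3 → C3} (hκ : 0 < κ) (hN : TameV N) (ξ : E3) :
    ContinuousOn (fun t => ∫ s in (0 : ℝ)..t, G κ N ξ s) (Ici 0) := by
  intro t ht
  have ht' : 0 ≤ t := ht
  have h1 : ContinuousOn (fun t => ∫ s in (0 : ℝ)..t, G κ N ξ s) (Icc 0 (t + 1)) := by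
    have := intervalIntegral.continuousOn_primitive_interval (a := 0) (b := t + 1)
      (f := G κ N ξ) (μ := volume) (by rw [uIcc_of_le (by linarith)]; exact intG hκ hN ξ _)
    rwa [uIcc_of_le (by linarith)] at this
  refine (h1 t ⟨ht', by linarith⟩).mono_of_mem_nhdsWithin ?_
  rw [mem_nhdsWithin]
  exact ⟨Iio (t + 1), isOpen_Iio, by simp, fun x hx => ⟨hx.2, hx.1.le⟩⟩

theorem cont_ht (κ : ℝ) (ξ : E3) : Continuous (ht κ ξ) := by
  unfold ht
  fun_prop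

theorem t_FI4 : S_NLB → S_NLM → S_CVM → S_WK1 → S_FI4 := by
  intro hNLB hNLM _ hWK1 κ u hκ hu hmild
  have hN := tameN hNLB hNLM hWK1 hu
  set N : ℝ → E3 → C3 := fun t ξ => nl (u t) (u t) ξ with hNdef
  have hform := fun ξ => formula (κ := κ) (u := u) (N := N) ξ hmild
  have hc1 : ∀ ξ, ContinuousOn (fun t => u t ξ) (Ici 0) := by
    intro ξ
    have : ContinuousOn (fun t => ht κ ξ t • (u 0 ξ + ∫ s in (0 : ℝ)..t, G κ N ξ s)) (Ici 0) :=
      (cont_ht κ ξ).continuousOn.smul (continuousOn_const.add (contPrim hκ hN ξ))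
    exact this.congr fun t ht => hform ξ t ht
  have hc2 : ∀ ξ, ContinuousOn (fun t => N t ξ) (Ici 0) := by
    intro ξ t ht
    have ht' : 0 ≤ t := ht
    obtain ⟨M0, hM0, hb0⟩ := bdN hu (t + 1)
    obtain ⟨M4, hM4, hb4⟩ := dec4 hu (t + 1)
    have hnb : ∀ᶠ s in 𝓝[Ici 0] t, s ∈ Icc 0 (t + 1) := by
      rw [eventually_iff, mem_nhdsWithin]
      exact ⟨Iio (t + 1), isOpen_Iio, by simp, fun x hx => ⟨hx.2, hx.1.le⟩⟩
    have hI : ContinuousWithinAt (fun s => ∫ η, dt ξ (u s (ξ - η)) • u s η) (Ici 0) t := by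
      refine continuousWithinAt_of_dominated
        (bound := fun η => 3 * ‖ξ‖ * M0 * (M4 * (1 + ‖η‖) ^ (-(4 : ℝ)))) ?_ ?_ ?_ ?_
      · refine Eventually.of_forall fun s => ?_
        have h1 : Measurable fun η : E3 => u s η := hu.1.comp measurable_prodMk_left
        have h2 : Measurable fun η : E3 => u s (ξ - η) := h1.comp (by fun_prop)
        exact ((cont_dt ξ).measurable.comp (h2.prodMk h1)).aestronglyMeasurable
      · filter_upwards [hnb] with s hs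
        refine Eventually.of_forall fun η => ?_
        rw [norm_smul]
        refine mul_le_mul ?_ (hb4 s hs η) (norm_nonneg _) (by positivity)
        exact (norm_dt_le _ _).trans (mul_le_mul_of_nonneg_left (hb0 s hs _) (by positivity))
      · refine Integrable.const_mul (Integrable.const_mul ?_ _) _
        exact integrable_one_add_norm (by simp; norm_num)
      · refine Eventually.of_forall fun η => ?_
        have a1 : ContinuousWithinAt (fun s => u s (ξ - η)) (Ici 0) t := hc1 (ξ - η) t ht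
        have a2 : ContinuousWithinAt (fun s => u s η) (Ici 0) t := hc1 η t ht
        have a3 : ContinuousWithinAt (fun s => (u s (ξ - η), u s η)) (Ici 0) t := a1.prodMk a2
        have a4 := ContinuousAt.comp_continuousWithinAt
          (g := fun p : C3 × C3 => dt ξ p.1 • p.2) (f := fun s => (u s (ξ - η), u s η))
          (cont_dt ξ).continuousAt a3
        exact a4
    have a5 := ContinuousAt.comp_continuousWithinAt
      (g := fun w : C3 => (-(2 * Real.pi * Complex.I) : ℂ) • Pool.Agent.Run7.h148.AX.lp ξ w)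
      (f := fun s => ∫ η, dt ξ (u s (ξ - η)) • u s η)
      (Continuous.continuousAt (by have := cont_lp ξ; fun_prop)) hI
    exact a5
  refine ⟨hc1, hc2, hN, ?_⟩
  intro t ht0 ξ
  -- continuous extension of the integrand
  let G' : ℝ → C3 := fun s => G κ N ξ (max s 0)
  have hG' : Continuous G' := by
    have h1 : ContinuousOn (G κ N ξ) (Ici 0) := by
      have h0 : ContinuousOn (fun s : ℝ => Real.exp (κ * ‖ξ‖ ^ 2 * s)) (Ici 0) := by fun_prop
      exact h0.smul (hc2 ξ)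
    exact h1.comp_continuous (by fun_prop) fun s => mem_Ici.2 (le_max_right _ _)
  have hprim : ∀ s : ℝ, 0 ≤ s → (∫ r in (0 : ℝ)..s, G κ N ξ r) = ∫ r in (0 : ℝ)..s, G' r := by
    intro s hs
    refine intervalIntegral.integral_congr fun r hr => ?_
    rw [uIcc_of_le hs] at hr
    show _ = G κ N ξ (max r 0)
    rw [max_eq_left hr.1]
  have hd : HasDerivAt (fun s => ∫ r in (0 : ℝ)..s, G' r) (G' t) t :=
    intervalIntegral.integral_hasDerivAt_right (hG'.intervalIntegrable _ _)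
      (hG'.stronglyMeasurableAtFilter _ _) hG'.continuousAt
  have hh : HasDerivAt (ht κ ξ) (-(κ * ‖ξ‖ ^ 2) * ht κ ξ t) t := by
    have h1 : HasDerivAt (fun s : ℝ => -(κ * ‖ξ‖ ^ 2) * s) (-(κ * ‖ξ‖ ^ 2)) t := by
      simpa using (hasDerivAt_id t).const_mul (-(κ * ‖ξ‖ ^ 2))
    have h2 := h1.exp
    have e : (fun s : ℝ => Real.exp (-(κ * ‖ξ‖ ^ 2) * s)) = ht κ ξ := by
      funext s
      unfold ht
      rw [neg_mul]
    have e2 : Real.exp (-(κ * ‖ξ‖ ^ 2) * t) * -(κ * ‖ξ‖ ^ 2) = -(κ * ‖ξ‖ ^ 2) * ht κ ξ t := by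
      unfold ht
      rw [neg_mul, mul_comm]
    rw [e, e2] at h2
    exact h2
  have hp : HasDerivAt (fun s => ht κ ξ s • (u 0 ξ + ∫ r in (0 : ℝ)..s, G' r))
      (ht κ ξ t • G' t + (-(κ * ‖ξ‖ ^ 2) * ht κ ξ t) • (u 0 ξ + ∫ r in (0 : ℝ)..t, G' r)) t := by
    have := hh.smul (hd.const_add (u 0 ξ))
    exact this
  have hval : ht κ ξ t • G' t + (-(κ * ‖ξ‖ ^ 2) * ht κ ξ t) • (u 0 ξ + ∫ r in (0 : ℝ)..t, G' r)
      = -(κ * ‖ξ‖ ^ 2) • u t ξ + nl (u t) (u t) ξ := by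
    rw [hform ξ t ht0, hprim t ht0]
    have e1 : G' t = Real.exp (κ * ‖ξ‖ ^ 2 * t) • nl (u t) (u t) ξ := by
      show G κ N ξ (max t 0) = _
      rw [max_eq_left ht0]
      rfl
    rw [e1, smul_smul]
    have e2 : ht κ ξ t * Real.exp (κ * ‖ξ‖ ^ 2 * t) = 1 := by
      unfold ht
      rw [← Real.exp_add]
      simp
    rw [e2, one_smul, mul_smul, add_comm]
  rw [hval] at hp
  refine hp.hasDerivWithinAt.congr (fun s hs => ?_) ?_
  · rw [hform ξ s hs, hprim s hs]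
  · rw [hform ξ t ht0, hprim t ht0]

end Run7.h793.AX
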